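import Mathlib

set_option autoImplicit false

open Finset

namespace Pool.Agent.Results.MP_ab344f_co.FewOverlaps

/-- A feasible pair `(a, b)` on the colour set `Fin r`: two functions from the subsets of the
colour set to `[0, 1]`, each of total sum `1`, such that whenever `R₁` and `R₂` are disjoint,
`a R₁ = 0` or `b R₂ = 0`. -/
structure Feasible {r : ℕ} (a b : Finset (Fin r) → ℝ) : Prop where
  a_mem : ∀ R, 0 ≤ a R ∧ a R ≤ 1
  b_mem : ∀ R, 0 ≤ b R ∧ b R ≤ 1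
  a_sum : ∑ R : Finset (Fin r), a R = 1
  b_sum : ∑ R : Finset (Fin r), b R = 1
  cross : ∀ R₁ R₂ : Finset (Fin r), R₁ ∩ R₂ = ∅ → a R₁ = 0 ∨ b R₂ = 0

/-- The colour total `a_i`, the sum of `a R` over the sets `R` that contain `i`. -/
noncomputable def tot {r : ℕ} (a : Finset (Fin r) → ℝ) (i : Fin r) : ℝ :=
  ∑ R : Finset (Fin r) with i ∈ R, a R

/-- `M` is the maximum of `a_i + b_i` over the colours `i`. -/
def IsMax {r : ℕ} (a b : Finset (Fin r) → ℝ) (M : ℝ) : Prop :=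
  IsGreatest (Set.range fun i : Fin r => tot a i + tot b i) M

/-- `(a, b)` is an optimal solution: it is feasible, and its maximum of `a_i + b_i` is at most the
maximum of `a'_i + b'_i` for every feasible pair `(a', b')`. -/
def Optimal {r : ℕ} (a b : Finset (Fin r) → ℝ) : Prop :=
  Feasible a b ∧ ∀ a' b' : Finset (Fin r) → ℝ, Feasible a' b' →
    ∀ M M' : ℝ, IsMax a b M → IsMax a' b' M' → M ≤ M'

section grid

variable {r t : ℕ} (e : Fin t × Fin t ↪ Fin r)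

/-- rows of the grid -/
def row (x : Fin t) : Finset (Fin r) := univ.image fun y => e (x, y)

/-- columns of the grid -/
def col (x : Fin t) : Finset (Fin r) := univ.image fun y => e (y, x)

/-- uniform weight on a family of sets -/
noncomputable def unif (f : Fin t → Finset (Fin r)) (R : Finset (Fin r)) : ℝ :=
  ∑ x : Fin t, if f x = R then (1 / t : ℝ) else 0

lemma unif_nonneg (f : Fin t → Finset (Fin r)) (R : Finset (Fin r)) : 0 ≤ unif f R := by
  unfold unif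
  refine Finset.sum_nonneg fun x _ => ?_
  split_ifs <;> positivity

lemma unif_sum (ht : 1 ≤ t) (f : Fin t → Finset (Fin r)) : ∑ R, unif f R = 1 := by
  unfold unif
  rw [Finset.sum_comm]
  have h : ∀ x : Fin t, ∑ R : Finset (Fin r), (if f x = R then (1 / t : ℝ) else 0) = 1 / t := by
    intro x
    rw [Finset.sum_ite_eq]
    simp
  rw [Finset.sum_congr rfl fun x _ => h x]
  have : (t : ℝ) ≠ 0 := by positivity
  simp [this]

lemma unif_le (ht : 1 ≤ t) (f : Fin t → Finset (Fin r)) (R : Finset (Fin r)) : unif f R ≤ 1 := by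
  rw [← unif_sum ht f]
  exact Finset.single_le_sum (f := unif f) (fun R _ => unif_nonneg f R) (Finset.mem_univ R)

lemma unif_supp (f : Fin t → Finset (Fin r)) (R : Finset (Fin r)) (h : unif f R ≠ 0) :
    ∃ x, f x = R := by
  by_contra hc
  push Not at hc
  exact h (Finset.sum_eq_zero fun x _ => if_neg (hc x))

lemma tot_unif (f : Fin t → Finset (Fin r)) (i : Fin r) :
    tot (unif f) i = ∑ x : Fin t, if i ∈ f x then (1 / t : ℝ) else 0 := by
  unfold tot unif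
  rw [Finset.sum_comm]
  refine Finset.sum_congr rfl fun x _ => ?_
  rw [Finset.sum_filter]
  have : ∀ R : Finset (Fin r), (if i ∈ R then (if f x = R then (1 / t : ℝ) else 0) else 0)
      = if f x = R then (if i ∈ f x then (1 / t : ℝ) else 0) else 0 := by
    intro R
    by_cases h : f x = R
    · subst h; simp
    · simp [h]
  rw [Finset.sum_congr rfl fun R _ => this R, Finset.sum_ite_eq]
  simp

/-- a family of pairwise disjoint sets has colour totals at most `1 / t` -/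
lemma tot_le (f : Fin t → Finset (Fin r)) (hd : ∀ i x y, i ∈ f x → i ∈ f y → x = y) (i : Fin r) :
    tot (unif f) i ≤ 1 / t := by
  rw [tot_unif]
  by_cases h : ∃ x, i ∈ f x
  · obtain ⟨x, hx⟩ := h
    have : ∀ y, (if i ∈ f y then (1 / t : ℝ) else 0) = if x = y then (1 / t : ℝ) else 0 := by
      intro y
      by_cases hy : i ∈ f y
      · simp [hy, hd i x y hx hy]
      · have : x ≠ y := fun h => hy (h ▸ hx)
        simp [hy, this]
    rw [Finset.sum_congr rfl fun y _ => this y, Finset.sum_ite_eq]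
    simp
  · push Not at h
    rw [Finset.sum_eq_zero fun x _ => if_neg (h x)]
    positivity

lemma tot_ge (f : Fin t → Finset (Fin r)) (i : Fin r) (x : Fin t) (hx : i ∈ f x) :
    1 / t ≤ tot (unif f) i := by
  rw [tot_unif]
  calc (1 / t : ℝ) = if i ∈ f x then (1 / t : ℝ) else 0 := by simp [hx]
    _ ≤ _ := Finset.single_le_sum (f := fun x => if i ∈ f x then (1 / t : ℝ) else 0)
        (fun x _ => by split_ifs <;> positivity) (Finset.mem_univ x)

lemma row_disj (i : Fin r) (x y : Fin t) (hx : i ∈ row e x) (hy : i ∈ row e y) : x = y := by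
  simp only [row, mem_image, mem_univ, true_and] at hx hy
  obtain ⟨u, hu⟩ := hx
  obtain ⟨v, hv⟩ := hy
  have := e.injective (hu.trans hv.symm)
  simpa using congrArg Prod.fst this

lemma col_disj (i : Fin r) (x y : Fin t) (hx : i ∈ col e x) (hy : i ∈ col e y) : x = y := by
  simp only [col, mem_image, mem_univ, true_and] at hx hy
  obtain ⟨u, hu⟩ := hx
  obtain ⟨v, hv⟩ := hy
  have := e.injective (hu.trans hv.symm)
  simpa using congrArg Prod.snd this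

lemma grid_feasible (ht : 1 ≤ t) : Feasible (unif (row e)) (unif (col e)) where
  a_mem R := ⟨unif_nonneg _ R, unif_le ht _ R⟩
  b_mem R := ⟨unif_nonneg _ R, unif_le ht _ R⟩
  a_sum := unif_sum ht _
  b_sum := unif_sum ht _
  cross R₁ R₂ h := by
    by_contra hc
    push Not at hc
    obtain ⟨x, hx⟩ := unif_supp _ _ hc.1
    obtain ⟨y, hy⟩ := unif_supp _ _ hc.2
    have : e (x, y) ∈ R₁ ∩ R₂ := by
      rw [← hx, ← hy]
      simp [row, col]
    rw [h] at this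
    simp at this

lemma grid_max (ht : 1 ≤ t) : IsMax (unif (row e)) (unif (col e)) (2 / t) := by
  have hup : ∀ i, tot (unif (row e)) i + tot (unif (col e)) i ≤ 2 / t := by
    intro i
    have h1 := tot_le (row e) (row_disj e) i
    have h2 := tot_le (col e) (col_disj e) i
    have h3 : (2 / t : ℝ) = 1 / t + 1 / t := by ring
    linarith
  let z : Fin t := ⟨0, ht⟩
  refine ⟨⟨e (z, z), ?_⟩, ?_⟩
  · refine le_antisymm (hup _) ?_
    have h1 := tot_ge (row e) (e (z, z)) z (by simp [row])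
    have h2 := tot_ge (col e) (e (z, z)) z (by simp [col])
    have h3 : (2 / t : ℝ) = 1 / t + 1 / t := by ring
    show (2 / t : ℝ) ≤ tot (unif (row e)) _ + tot (unif (col e)) _
    linarith
  · rintro _ ⟨i, rfl⟩
    exact hup i

end grid

/-- double counting -/
lemma double {r : ℕ} (a b : Finset (Fin r) → ℝ) :
    ∑ i, tot a i * tot b i
      = ∑ R₁ : Finset (Fin r), ∑ R₂ : Finset (Fin r), a R₁ * b R₂ * ((R₁ ∩ R₂).card : ℝ) := by
  have h : ∀ R₁ R₂ : Finset (Fin r), a R₁ * b R₂ * ((R₁ ∩ R₂).card : ℝ)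
      = ∑ i, (if i ∈ R₁ then a R₁ else 0) * (if i ∈ R₂ then b R₂ else 0) := by
    intro R₁ R₂
    have : ∀ i, (if i ∈ R₁ then a R₁ else 0) * (if i ∈ R₂ then b R₂ else 0)
        = if i ∈ R₁ ∩ R₂ then a R₁ * b R₂ else 0 := by
      intro i
      by_cases h1 : i ∈ R₁ <;> by_cases h2 : i ∈ R₂ <;> simp [h1, h2]
    rw [Finset.sum_congr rfl fun i _ => this i, Finset.sum_ite_mem]
    simp [mul_comm]
  simp_rw [h]
  have hc : ∑ R₁ : Finset (Fin r), ∑ R₂ : Finset (Fin r), ∑ i : Fin r,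
      (if i ∈ R₁ then a R₁ else 0) * (if i ∈ R₂ then b R₂ else 0)
      = ∑ i : Fin r, ∑ R₁ : Finset (Fin r), ∑ R₂ : Finset (Fin r),
      (if i ∈ R₁ then a R₁ else 0) * (if i ∈ R₂ then b R₂ else 0) := by
    rw [Finset.sum_comm]
    rw [Finset.sum_congr rfl fun R₂ _ => Finset.sum_comm]
    rw [Finset.sum_comm]
    exact Finset.sum_congr rfl fun i _ => Finset.sum_comm
  rw [hc]
  refine Finset.sum_congr rfl fun i _ => ?_
  unfold tot
  rw [Finset.sum_filter, Finset.sum_filter, Finset.sum_mul_sum]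

lemma tot_nonneg {r : ℕ} {a : Finset (Fin r) → ℝ} (h : ∀ R, 0 ≤ a R ∧ a R ≤ 1) (i : Fin r) :
    0 ≤ tot a i := Finset.sum_nonneg fun R _ => (h R).1

/-- total overlap is nonnegative, termwise -/
lemma term_nonneg {r : ℕ} {a b : Finset (Fin r) → ℝ} (hf : Feasible a b)
    (R₁ R₂ : Finset (Fin r)) : 0 ≤ a R₁ * b R₂ * (((R₁ ∩ R₂).card : ℝ) - 1) := by
  by_cases hz : R₁ ∩ R₂ = ∅
  · rcases hf.cross R₁ R₂ hz with h0 | h0 <;> simp [h0]
  · have h1 : (1 : ℝ) ≤ ((R₁ ∩ R₂).card : ℝ) := by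
      exact_mod_cast Finset.card_pos.2 (Finset.nonempty_iff_ne_empty.2 hz)
    have h2 : 0 ≤ a R₁ * b R₂ := mul_nonneg (hf.a_mem R₁).1 (hf.b_mem R₂).1
    exact mul_nonneg h2 (by linarith)

/-- the basic identity -/
lemma ident {r : ℕ} {a b : Finset (Fin r) → ℝ} (hf : Feasible a b) (M : ℝ) :
    4 * (∑ R₁ : Finset (Fin r), ∑ R₂ : Finset (Fin r),
        a R₁ * b R₂ * (((R₁ ∩ R₂).card : ℝ) - 1))
      + ∑ i, (tot a i - tot b i) ^ 2 + ∑ i, (M ^ 2 - (tot a i + tot b i) ^ 2)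
      = r * M ^ 2 - 4 := by
  have hone : ∑ R₁ : Finset (Fin r), ∑ R₂ : Finset (Fin r), a R₁ * b R₂ = 1 := by
    rw [← Finset.sum_mul_sum, hf.a_sum, hf.b_sum, one_mul]
  have h1 : ∑ R₁ : Finset (Fin r), ∑ R₂ : Finset (Fin r),
        a R₁ * b R₂ * (((R₁ ∩ R₂).card : ℝ) - 1) = (∑ i, tot a i * tot b i) - 1 := by
    have h0 : ∑ R₁ : Finset (Fin r), ∑ R₂ : Finset (Fin r),
        a R₁ * b R₂ * (((R₁ ∩ R₂).card : ℝ) - 1)
        = (∑ R₁ : Finset (Fin r), ∑ R₂ : Finset (Fin r), a R₁ * b R₂ * ((R₁ ∩ R₂).card : ℝ))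
          - ∑ R₁ : Finset (Fin r), ∑ R₂ : Finset (Fin r), a R₁ * b R₂ := by
      rw [← Finset.sum_sub_distrib]
      refine Finset.sum_congr rfl fun R₁ _ => ?_
      rw [← Finset.sum_sub_distrib]
      exact Finset.sum_congr rfl fun R₂ _ => by ring
    rw [h0, hone, double]
  have h2 : ∑ i, (tot a i - tot b i) ^ 2 + ∑ i, (M ^ 2 - (tot a i + tot b i) ^ 2)
      = r * M ^ 2 - 4 * ∑ i, tot a i * tot b i := by
    rw [← Finset.sum_add_distrib, Finset.mul_sum]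
    have : (r : ℝ) * M ^ 2 = ∑ _i : Fin r, M ^ 2 := by simp
    rw [this, ← Finset.sum_sub_distrib]
    exact Finset.sum_congr rfl fun i _ => by ring
  rw [h1]
  linarith

/-- an optimal solution has maximum at most `2 / s` whenever `s ^ 2 ≤ r` -/
lemma max_le {r s : ℕ} (hs : 1 ≤ s) (hr : s ^ 2 ≤ r) {a b : Finset (Fin r) → ℝ}
    (h : Optimal a b) {M : ℝ} (hM : IsMax a b M) : M ≤ 2 / s := by
  have hcard : s * s ≤ r := by rw [← sq]; exact hr
  let e : Fin s × Fin s ↪ Fin r :=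
    (finProdFinEquiv.toEmbedding).trans (Fin.castLEEmb hcard)
  exact h.2 _ _ (grid_feasible e hs) _ _ hM (grid_max e hs)

lemma max_pos {r : ℕ} (hr : 1 ≤ r) {a b : Finset (Fin r) → ℝ} (hf : Feasible a b) {M : ℝ}
    (hM : IsMax a b M) : 0 ≤ M := by
  have : tot a ⟨0, hr⟩ + tot b ⟨0, hr⟩ ≤ M := hM.2 ⟨_, rfl⟩
  have h1 := tot_nonneg hf.a_mem ⟨0, hr⟩
  have h2 := tot_nonneg hf.b_mem ⟨0, hr⟩
  linarith

/-- the three nonnegative parts of the identity -/
lemma parts {r : ℕ} {a b : Finset (Fin r) → ℝ} (hf : Feasible a b) {M : ℝ}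
    (hM : IsMax a b M) :
    (0 ≤ ∑ R₁ : Finset (Fin r), ∑ R₂ : Finset (Fin r),
        a R₁ * b R₂ * (((R₁ ∩ R₂).card : ℝ) - 1)) ∧
    (0 ≤ ∑ i, (tot a i - tot b i) ^ 2) ∧ (∀ i, 0 ≤ M ^ 2 - (tot a i + tot b i) ^ 2) := by
  refine ⟨Finset.sum_nonneg fun R₁ _ => Finset.sum_nonneg fun R₂ _ => term_nonneg hf R₁ R₂,
    Finset.sum_nonneg fun i _ => sq_nonneg _, fun i => ?_⟩
  have h0 : tot a i + tot b i ≤ M := hM.2 ⟨_, rfl⟩
  have h1 := tot_nonneg hf.a_mem i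
  have h2 := tot_nonneg hf.b_mem i
  have : (tot a i + tot b i) ^ 2 ≤ M ^ 2 := pow_le_pow_left₀ (by positivity) h0 2
  linarith

lemma exists_max {r : ℕ} (hr : 1 ≤ r) (a b : Finset (Fin r) → ℝ) : ∃ M, IsMax a b M := by
  have : Nonempty (Fin r) := ⟨⟨0, hr⟩⟩
  obtain ⟨i₀, hi₀⟩ := Finite.exists_max fun i : Fin r => tot a i + tot b i
  exact ⟨_, ⟨i₀, rfl⟩, by rintro _ ⟨i, rfl⟩; exact hi₀ i⟩

/-- The structure of the optimal solutions when `r = t ^ 2`. -/
theorem structure_thm {r t : ℕ} (ht : 1 ≤ t) (hr : r = t ^ 2) (a b : Finset (Fin r) → ℝ)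
    (h : Optimal a b) :
    (∀ i, tot a i = 1 / t ∧ tot b i = 1 / t) ∧
    (∀ R₁ R₂ : Finset (Fin r), 0 < a R₁ → 0 < b R₂ → (R₁ ∩ R₂).card = 1) := by
  have htp : (0 : ℝ) < t := by positivity
  have hr1 : 1 ≤ r := by rw [hr]; exact Nat.one_le_pow _ _ ht
  obtain ⟨M, hM⟩ := exists_max hr1 a b
  have hM2 := max_le ht hr.ge h hM
  have hM0 := max_pos hr1 h.1 hM
  have hid := ident h.1 M
  obtain ⟨p1, p2, p3⟩ := parts h.1 hM
  have hrM : (r : ℝ) * M ^ 2 ≤ 4 := by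
    have h1 : M ^ 2 ≤ (2 / t : ℝ) ^ 2 := pow_le_pow_left₀ hM0 hM2 2
    have h2 : (r : ℝ) = (t : ℝ) ^ 2 := by rw [hr]; push_cast; ring
    calc (r : ℝ) * M ^ 2 ≤ r * (2 / t : ℝ) ^ 2 := by gcongr
      _ = 4 := by rw [h2]; field_simp; norm_num
  have p3' : 0 ≤ ∑ i, (M ^ 2 - (tot a i + tot b i) ^ 2) := Finset.sum_nonneg fun i _ => p3 i
  have q1 : ∑ R₁ : Finset (Fin r), ∑ R₂ : Finset (Fin r),
        a R₁ * b R₂ * (((R₁ ∩ R₂).card : ℝ) - 1) = 0 := by linarith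
  have q2 : ∑ i, (tot a i - tot b i) ^ 2 = 0 := by linarith
  have q3 : ∑ i, (M ^ 2 - (tot a i + tot b i) ^ 2) = 0 := by linarith
  have q4 : (r : ℝ) * M ^ 2 = 4 := by linarith
  have hMt : M = 2 / t := by
    have h2 : (r : ℝ) = (t : ℝ) ^ 2 := by rw [hr]; push_cast; ring
    have h3 : M ^ 2 = (2 / t : ℝ) ^ 2 := by
      rw [h2] at q4
      field_simp
      linarith
    rwa [pow_left_inj₀ hM0 (by positivity) two_ne_zero] at h3
  refine ⟨fun i => ?_, fun R₁ R₂ h1 h2 => ?_⟩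
  · have e1 := (Finset.sum_eq_zero_iff_of_nonneg (fun i _ => sq_nonneg _)).1 q2 i
      (Finset.mem_univ i)
    have e2 := (Finset.sum_eq_zero_iff_of_nonneg (fun i _ => p3 i)).1 q3 i (Finset.mem_univ i)
    have h6 : tot a i = tot b i := by
      have := (pow_eq_zero_iff two_ne_zero).1 e1
      linarith
    have h7 : (tot a i + tot b i) = M := by
      have ha := tot_nonneg h.1.a_mem i
      have hb := tot_nonneg h.1.b_mem i
      have : (tot a i + tot b i) ^ 2 = M ^ 2 := by linarith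
      rwa [pow_left_inj₀ (by positivity) hM0 two_ne_zero] at this
    have h8 : tot a i = 1 / t := by
      have : (2 / t : ℝ) = 1 / t + 1 / t := by ring
      linarith
    exact ⟨h8, by rw [← h6, h8]⟩
  · have e1 := (Finset.sum_eq_zero_iff_of_nonneg (fun R₁ _ =>
      Finset.sum_nonneg fun R₂ _ => term_nonneg h.1 R₁ R₂)).1 q1 R₁ (Finset.mem_univ _)
    have e2 := (Finset.sum_eq_zero_iff_of_nonneg (fun R₂ _ => term_nonneg h.1 R₁ R₂)).1 e1 R₂
      (Finset.mem_univ _)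
    have hpos : 0 < a R₁ * b R₂ := mul_pos h1 h2
    have e4 : ((R₁ ∩ R₂).card : ℝ) - 1 = 0 := by
      rcases mul_eq_zero.1 e2 with h0 | h0
      · exact absurd h0 hpos.ne'
      · exact h0
    have e5 : ((R₁ ∩ R₂).card : ℝ) = 1 := by linarith
    exact_mod_cast e5

/-- the remainder of the integer square root -/
lemma sqrt_bd (r : ℕ) : (r : ℝ) ≤ (Nat.sqrt r : ℝ) ^ 2 + 2 * (Nat.sqrt r : ℝ) := by
  have h := Nat.sqrt_le_add r
  have h2 : (r : ℝ) ≤ Nat.sqrt r * Nat.sqrt r + Nat.sqrt r + Nat.sqrt r := by exact_mod_cast h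
  nlinarith

/-- in the perfect square case all sets of the supports have exactly `t` elements -/
theorem card_supp {r t : ℕ} (ht : 1 ≤ t) (a b : Finset (Fin r) → ℝ) (hf : Feasible a b)
    (h1 : ∀ i, tot b i = 1 / t)
    (h2 : ∀ R₁ R₂ : Finset (Fin r), 0 < a R₁ → 0 < b R₂ → (R₁ ∩ R₂).card = 1)
    (R₁ : Finset (Fin r)) (hR : 0 < a R₁) : R₁.card = t := by
  have htp : (0 : ℝ) < t := by positivity
  have e1 : ∑ R₂ : Finset (Fin r), b R₂ * ((R₁ ∩ R₂).card : ℝ) = 1 := by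
    rw [← hf.b_sum]
    refine Finset.sum_congr rfl fun R₂ _ => ?_
    rcases eq_or_lt_of_le (hf.b_mem R₂).1 with h0 | h0
    · rw [← h0]; simp
    · rw [h2 R₁ R₂ hR h0]; simp
  have e2 : ∑ R₂ : Finset (Fin r), b R₂ * ((R₁ ∩ R₂).card : ℝ) = ∑ i ∈ R₁, tot b i := by
    unfold tot
    simp_rw [Finset.sum_filter]
    rw [Finset.sum_comm]
    refine Finset.sum_congr rfl fun R₂ _ => ?_
    rw [Finset.sum_ite_mem]
    simp [mul_comm]
  rw [e2, Finset.sum_congr rfl fun i _ => h1 i] at e1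
  simp only [Finset.sum_const, nsmul_eq_mul] at e1
  have e3 : (R₁.card : ℝ) = t := by
    field_simp at e1
    linarith
  exact_mod_cast e3

lemma Feasible.symm {r : ℕ} {a b : Finset (Fin r) → ℝ} (hf : Feasible a b) : Feasible b a where
  a_mem := hf.b_mem
  b_mem := hf.a_mem
  a_sum := hf.b_sum
  b_sum := hf.a_sum
  cross R₁ R₂ h := (hf.cross R₂ R₁ (by rw [Finset.inter_comm]; exact h)).symm

/-- **Overlaps in optimal solutions, for perfect squares and approximately for all `r`.**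
Let `r ≥ 1` and let `(a, b)` be an optimal solution on `r` colours.
* The total weight `a(R₁) b(R₂)` of the pairs `(R₁, R₂)` with `|R₁ ∩ R₂| ≥ 2` is at most
  `r / ⌊√r⌋² - 1`, and so is the sum of `a(R₁) b(R₂) (|R₁ ∩ R₂| - 1)` over all pairs; moreover
  `r / ⌊√r⌋² - 1 ≤ 2 / ⌊√r⌋`.
* If `r = t ^ 2` is a perfect square, there are no sets `R₁, R₂` with `|R₁ ∩ R₂| ≥ 2`, `a(R₁) > 0`
  and `b(R₂) > 0`; in fact `|R₁ ∩ R₂| = 1` and `|R₁| = |R₂| = t` whenever `a(R₁) > 0` and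
  `b(R₂) > 0`. -/
theorem result : ∀ r : ℕ, 1 ≤ r → ∀ a b : Finset (Fin r) → ℝ, Optimal a b →
    (∑ R₁ : Finset (Fin r), ∑ R₂ : Finset (Fin r),
        (if 2 ≤ (R₁ ∩ R₂).card then a R₁ * b R₂ else 0)
      ≤ (r : ℝ) / (Nat.sqrt r : ℝ) ^ 2 - 1) ∧
    (∑ R₁ : Finset (Fin r), ∑ R₂ : Finset (Fin r),
        a R₁ * b R₂ * (((R₁ ∩ R₂).card : ℝ) - 1)
      ≤ (r : ℝ) / (Nat.sqrt r : ℝ) ^ 2 - 1) ∧
    ((r : ℝ) / (Nat.sqrt r : ℝ) ^ 2 - 1 ≤ 2 / (Nat.sqrt r : ℝ)) ∧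
    (∀ t : ℕ, r = t ^ 2 →
      (¬ ∃ R₁ R₂ : Finset (Fin r), 2 ≤ (R₁ ∩ R₂).card ∧ 0 < a R₁ ∧ 0 < b R₂) ∧
      (∀ R₁ R₂ : Finset (Fin r), 0 < a R₁ → 0 < b R₂ →
        (R₁ ∩ R₂).card = 1 ∧ R₁.card = t ∧ R₂.card = t)) := by
  intro r hr a b h
  have hs : 1 ≤ Nat.sqrt r := Nat.sqrt_pos.2 hr
  have hsr : (Nat.sqrt r) ^ 2 ≤ r := by rw [sq]; exact Nat.sqrt_le r
  have key : ∑ R₁ : Finset (Fin r), ∑ R₂ : Finset (Fin r),
        a R₁ * b R₂ * (((R₁ ∩ R₂).card : ℝ) - 1)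
      ≤ (r : ℝ) / (Nat.sqrt r : ℝ) ^ 2 - 1 := by
    obtain ⟨M, hM⟩ := exists_max hr a b
    have hM2 := max_le hs hsr h hM
    have hM0 := max_pos hr h.1 hM
    have hid := ident h.1 M
    obtain ⟨p1, p2, p3⟩ := parts h.1 hM
    have p3' : 0 ≤ ∑ i, (M ^ 2 - (tot a i + tot b i) ^ 2) := Finset.sum_nonneg fun i _ => p3 i
    have hsp : (0 : ℝ) < (Nat.sqrt r : ℝ) := by exact_mod_cast hs
    have h1 : M ^ 2 ≤ (2 / (Nat.sqrt r : ℝ)) ^ 2 := pow_le_pow_left₀ hM0 hM2 2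
    have h2 : (r : ℝ) * M ^ 2 ≤ r * (2 / (Nat.sqrt r : ℝ)) ^ 2 := by gcongr
    have h3 : (r : ℝ) * (2 / (Nat.sqrt r : ℝ)) ^ 2 = 4 * ((r : ℝ) / (Nat.sqrt r : ℝ) ^ 2) := by
      field_simp; norm_num
    linarith
  have hlast : (r : ℝ) / (Nat.sqrt r : ℝ) ^ 2 - 1 ≤ 2 / (Nat.sqrt r : ℝ) := by
    have hsp : (0 : ℝ) < (Nat.sqrt r : ℝ) := by exact_mod_cast hs
    have hb := sqrt_bd r
    have h3 : (2 / (Nat.sqrt r : ℝ)) = 2 * (Nat.sqrt r : ℝ) / (Nat.sqrt r : ℝ) ^ 2 := by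
      field_simp
    rw [h3, sub_le_iff_le_add, div_add_one (by positivity)]
    gcongr
    linarith
  refine ⟨?_, key, hlast, fun t ht => ?_⟩
  · refine le_trans ?_ key
    refine Finset.sum_le_sum fun R₁ _ => Finset.sum_le_sum fun R₂ _ => ?_
    split_ifs with hc
    · have h0 : 0 ≤ a R₁ * b R₂ := mul_nonneg (h.1.a_mem R₁).1 (h.1.b_mem R₂).1
      have h1 : (2 : ℝ) ≤ ((R₁ ∩ R₂).card : ℝ) := by exact_mod_cast hc
      nlinarith
    · exact term_nonneg h.1 R₁ R₂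
  · have ht1 : 1 ≤ t := by
      rcases Nat.eq_zero_or_pos t with h0 | h0
      · subst h0; simp at ht; omega
      · exact h0
    obtain ⟨k1, k2⟩ := structure_thm ht1 ht a b h
    refine ⟨?_, fun R₁ R₂ h1 h2 => ⟨k2 R₁ R₂ h1 h2, ?_, ?_⟩⟩
    · rintro ⟨R₁, R₂, hc, h1, h2⟩
      have := k2 R₁ R₂ h1 h2
      omega
    · exact card_supp ht1 a b h.1 (fun i => (k1 i).2) k2 R₁ h1
    · exact card_supp ht1 b a h.1.symm (fun i => (k1 i).1)
        (fun S T hS hT => by rw [Finset.inter_comm]; exact k2 T S hT hS) R₂ h2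

end Pool.Agent.Results.MP_ab344f_co.FewOverlaps
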